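import Pool.Agent.Run7.h311.OM.Fin

/-!
# Joint extreme values of zeta at several shifts, with prescribed phases of the small primes

Let `n` be a natural number and let `κ, A, ε, η > 0` be real. Unconditionally there are `c, C > 0` such that for all
large `T` the following holds, uniformly in

* `P` with `P log log T ≤ c log T` and unimodular numbers `z_p`,
* real shifts `α_1, ..., α_n` in `[-T/2, T/2]` whose mutual distances lie in `[κ / log log T, A]`,
* ALL real targets `x_1, ..., x_n` with `|x_j| ≤ c √(log T / log log T)`, of any signs: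

the set of all `t` in `(T, 2T]` at which `ζ(1/2 + i(t + α_j)) ≠ 0` and
`| log |ζ(1/2 + i(t + α_j))| - log |∏_{p ≤ P} (1 - p ^ (-1/2 - i(t + α_j)))^(-1)| - x_j | ≤ C √(log log T)` for all `j`,
and `|p ^ (it) - z_p| ≤ ε` for all primes `p ≤ P`, is measurable and has measure at least `T ^ (1 - η)`.

So zeta has values of size `exp(± c √(log T / log log T))` at `n` points at once, in every pattern of signs and sizes,
even at points at distance `κ / log log T` from each other, and even if the phases of all primes up to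
`c log T / log log T` are prescribed, for instance `p ^ (it)` near `-1` for all of them; the extreme values come from
larger primes. For `n = 1`, `P = 1` and `x_1 > 0` this is the resonance theorem of Soundararajan up to the constant.

Proof: the resonator is a product of about `log T / log log T` short factors `1 + μ ∑_{p ∈ B} g(p) p ^ (-s)`,
`∑_{p ∈ B} |g(p)|²/p` of order one, over disjoint blocks `B` of the primes between `(log T)²` and `(log T)^K`, times a
polynomial that detects the phases; `g(p) = ∑_j β_j p ^ (-i α_j)`, where the `β_j` solve a diagonally dominant linear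
system, such that the weighted mean of `Re ∑ p ^ (-1/2-i(t+α_j))` is `x_j` while the weighted variance stays bounded.
Off the diagonal of that system stand sums `∑ cos((α_j - α_k) log p) / p`, bounded by the behaviour of zeta near its
pole. The approximation of `log |ζ|` by sums over primes relative to arbitrary Dirichlet polynomials is the
starting library `Q97/UM`.
-/

set_option autoImplicit false

open Filter Topology Complex MeasureTheory

namespace Pool.Agent.Results.MP_4e5e8a_nt.JointExtremeValues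

/-- zeta at the point `1/2 + it` -/
noncomputable def zetaLine (t : ℝ) : ℂ := riemannZeta (1 / 2 + t * I)

/-- the logarithm of the modulus of the Euler product over the primes `p ≤ P` at `1/2 + it` -/
noncomputable def eulerLog (P : ℕ) (t : ℝ) : ℝ :=
  -∑ p ∈ (Finset.Icc 1 P).filter Nat.Prime, Real.log ‖1 - (p : ℂ) ^ (-(1 / 2 + t * I))‖

/-- the set of all `t` in `(T, 2T]` at which, for all `j`, the logarithm of `|ζ(1/2 + i(t + α_j))|` without the primes
`p ≤ P` is within `D` of `x_j`, and `p ^ (it)` is within `ε` of `z_p` for all primes `p ≤ P` -/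
def pattern (D ε : ℝ) (P : ℕ) (z : ℕ → ℂ) {n : ℕ} (α x : Fin n → ℝ) (T : ℝ) : Set ℝ :=
  {t : ℝ | T < t ∧ t ≤ 2 * T ∧
    (∀ j, zetaLine (t + α j) ≠ 0 ∧ |Real.log ‖zetaLine (t + α j)‖ - eulerLog P (t + α j) - x j| ≤ D) ∧
    ∀ p : ℕ, p.Prime → p ≤ P → ‖(p : ℂ) ^ (t * I) - z p‖ ≤ ε}

open Pool.Agent.Q97.UM Run7.h311.OM in
lemma pattern_eq (D ε : ℝ) (P : ℕ) (z : ℕ → ℂ) {n : ℕ} (α x : Fin n → ℝ) (T : ℝ) :
    pattern D ε P z α x T = JE D ε P z α x T \ ⋃ j, {t : ℝ | zetaLine (t + α j) = 0} := by
  ext t
  have e : ∀ s : ℝ, EP P s = eulerLog P s := fun s => rfl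
  have e2 : ∀ s : ℝ, zt s = zetaLine s := fun s => rfl
  simp only [pattern, JE, Set.mem_ofPred_eq, Set.mem_sdiff, Set.mem_inter_iff, Set.mem_Ioc, Set.mem_iUnion, not_exists,
    e, e2]
  constructor
  · rintro ⟨h1, h2, h3, h4⟩
    exact ⟨⟨⟨h1, h2⟩, fun j => (h3 j).2, h4⟩, fun j => (h3 j).1⟩
  · rintro ⟨⟨⟨h1, h2⟩, h3, h4⟩, h5⟩
    exact ⟨h1, h2, fun j => ⟨h5 j, h3 j⟩, h4⟩

/-- **joint extreme values at several shifts, with prescribed phases of the small primes** -/
theorem result (n : ℕ) (κ A ε η : ℝ) (hκ : 0 < κ) (hε : 0 < ε) (hη : 0 < η) : ∃ c C : ℝ, 0 < c ∧ 0 < C ∧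
    ∀ᶠ T : ℝ in atTop, ∀ (P : ℕ) (z : ℕ → ℂ) (α x : Fin n → ℝ),
      P * Real.log (Real.log T) ≤ c * Real.log T → (∀ p, ‖z p‖ = 1) → (∀ j, |α j| ≤ T / 2) →
      (∀ i j, i ≠ j → κ / Real.log (Real.log T) ≤ |α i - α j| ∧ |α i - α j| ≤ A) →
      (∀ j, |x j| ≤ c * Real.sqrt (Real.log T / Real.log (Real.log T))) →
      MeasurableSet (pattern (C * Real.sqrt (Real.log (Real.log T))) ε P z α x T) ∧
      ENNReal.ofReal (T ^ (1 - η)) ≤ volume (pattern (C * Real.sqrt (Real.log (Real.log T))) ε P z α x T) := by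
  obtain ⟨c, C, hc, hC, h⟩ := Run7.h311.OM.joint n (A := A) hκ hε hη
  refine ⟨c, C, hc, hC, ?_⟩
  filter_upwards [h] with T h P z α x hP hz hα hgap hx
  have h1 := h P z α x hP hz hα hgap hx
  have hc : (⋃ j, {t : ℝ | zetaLine (t + α j) = 0}).Countable := by
    refine Set.countable_iUnion fun j => ?_
    have h2 : {t : ℝ | zetaLine (t + α j) = 0} = (fun t => t + α j) ⁻¹' {t : ℝ | Pool.Agent.Q97.UM.zt t = 0} := rfl
    rw [h2]
    exact Pool.Agent.Q98.UM.countable_zt.preimage (add_left_injective (α j))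
  rw [pattern_eq]
  refine ⟨(Run7.h311.OM.JE_meas _ _ _ _ _ _ _).diff hc.measurableSet, ?_⟩
  rw [measure_sdiff_null (hc.measure_zero volume)]
  rw [Measure.real] at h1
  exact ENNReal.ofReal_le_of_le_toReal h1

end Pool.Agent.Results.MP_4e5e8a_nt.JointExtremeValues
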