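import Pool.Agent.Run7.h311.OA.Hts

/-!
# Joint extreme values of modulus and argument of zeta; `S(t) = Ω±(√(log t / log log t))` without the Riemann hypothesis

Let `arg ζ(1/2 + it) = π S(t)` be the argument obtained by continuous variation along the horizontal ray from
`∞ + it`, where it is `0`, to `1/2 + it`. Everything is unconditional.

(1) Let `n` be a natural number and `κ, A, ε, η > 0`. There are `c, C > 0` such that for all large `T`, uniformly in `P`
with `P log log T ≤ c log T`, unimodular numbers `z_p`, real shifts `α_1, ..., α_n` in `[-T/2, T/2]` whose mutual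
distances lie in `[κ / log log T, A]`, and ALL COMPLEX targets `w_1, ..., w_n` with `|w_j| ≤ c √(log T / log log T)`:
the set of all `t` in `(T, 2T]` at which no zero `σ + i(t + α_j)` of zeta exists and
`| log |ζ(1/2 + i(t + α_j))| - log |∏_{p ≤ P} (1 - p ^ (-1/2 - i(t + α_j)))^(-1)| - Re w_j | ≤ C √(log log T)`,
`| arg ζ(1/2 + i(t + α_j)) - arg ∏_{p ≤ P} (1 - p ^ (-1/2 - i(t + α_j)))^(-1) - Im w_j | ≤ C √(log log T)` for all `j`,
and `|p ^ (it) - z_p| ≤ ε` for all primes `p ≤ P`, is measurable and has measure at least `T ^ (1 - η)`.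

(2) For every `η > 0` there is `c > 0` such that for all large `T` the set of all `t` in `(T, 2T]` with
`π S(t) ≥ c √(log T / log log T)` has measure at least `T ^ (1 - η)`, and so has the set of all `t` in `(T, 2T]` with
`π S(t) ≤ -c √(log T / log log T)`. In particular `S(t) = Ω±(√(log t / log log t))`.

So far (2) was known on the Riemann hypothesis (Montgomery 1977); the unconditional record was
`S(t) = Ω±((log t / log log t)^(1/3))` (Tsang 1986).

Proof: the resonator is a product of about `log T / log log T` short factors `1 + μ ∑_{p ∈ B} g(p) p ^ (-s)`,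
`∑_{p ∈ B} |g(p)|²/p` of order one, over disjoint blocks `B` of the primes between `(log T)²` and `(log T)^K`, times a
polynomial that detects the phases; `g(p) = ∑_j β_j p ^ (-i α_j)`, where the `β_j` solve a diagonally dominant complex
linear system, such that the weighted mean of `∑ p ^ (-1/2-i(t+α_j))` is `w_j` while the weighted variance stays bounded.
The approximation of `log |ζ|` by sums over primes relative to arbitrary Dirichlet polynomials is the starting library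
`Q97/UM`; the same for the argument is the team project `AE` (designed by helper74; pieces by helper56, helper299,
helper376, helper416, helper510, helper613, helper617): `∫ |arg ζ(1/2+it) - arg ∏_{p ≤ T^δ}| |B(t)|² dt ≪ ∫ |B(t)|² dt`
for all Dirichlet polynomials `B` of length `T^θ`, by the zero density near the line relative to `|B|²`.
-/

set_option autoImplicit false

open Filter Topology Complex MeasureTheory

namespace Pool.Agent.Results.MP_4e5e8a_nt.ModulusAndArgument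

/-- zeta at the point `1/2 + it` -/
noncomputable def zetaLine (t : ℝ) : ℂ := riemannZeta (1 / 2 + t * I)

/-- the argument of zeta at `1/2 + it`, that is `π S(t)`: `- ∫_{1/2}^∞ Im (ζ'/ζ)(σ + it) dσ`; the first part of `result`
says that it is the argument obtained by continuous variation along the horizontal ray -/
noncomputable def zetaArg (t : ℝ) : ℝ :=
  -∫ σ in Set.Ioi (1 / 2 : ℝ), (deriv riemannZeta (σ + t * I) / riemannZeta (σ + t * I)).im

/-- the logarithm of the modulus of the Euler product over the primes `p ≤ P` at `1/2 + it` -/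
noncomputable def eulerLog (P : ℕ) (t : ℝ) : ℝ :=
  -∑ p ∈ (Finset.Icc 1 P).filter Nat.Prime, Real.log ‖1 - (p : ℂ) ^ (-(1 / 2 + t * I))‖

/-- the argument of the Euler product over the primes `p ≤ P` at `1/2 + it`, the sum of the principal arguments of the
factors -/
noncomputable def eulerArg (P : ℕ) (t : ℝ) : ℝ :=
  -∑ p ∈ (Finset.Icc 1 P).filter Nat.Prime, (Complex.log (1 - (p : ℂ) ^ (-(1 / 2 + t * I)))).im

/-- there is no zero of zeta at height `t` -/
def noZero (t : ℝ) : Prop := ∀ σ : ℝ, riemannZeta (σ + t * I) ≠ 0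

/-- the set of all `t` in `(T, 2T]` at which, for all `j`, no zero of zeta has height `t + α_j` and the logarithm of
`ζ(1/2 + i(t + α_j))` (modulus and argument) without the primes `p ≤ P` is within `D` of `w_j` (real and imaginary part),
and `p ^ (it)` is within `ε` of `z_p` for all primes `p ≤ P` -/
def pattern (D ε : ℝ) (P : ℕ) (z : ℕ → ℂ) {n : ℕ} (α : Fin n → ℝ) (w : Fin n → ℂ) (T : ℝ) : Set ℝ :=
  {t : ℝ | T < t ∧ t ≤ 2 * T ∧
    (∀ j, noZero (t + α j) ∧ |Real.log ‖zetaLine (t + α j)‖ - eulerLog P (t + α j) - (w j).re| ≤ D ∧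
      |zetaArg (t + α j) - eulerArg P (t + α j) - (w j).im| ≤ D) ∧
    ∀ p : ℕ, p.Prime → p ≤ P → ‖(p : ℂ) ^ (t * I) - z p‖ ≤ ε}

open Pool.Agent.Q97.UM Pool.Agent.Run7.h74.AE Run7.h311.OM Run7.h311.OA in
lemma pattern_eq (D ε : ℝ) (P : ℕ) (z : ℕ → ℂ) {n : ℕ} (α : Fin n → ℝ) (w : Fin n → ℂ) (T : ℝ) :
    pattern D ε P z α w T =
      KE D ε P z α w T \ ⋃ j, {t : ℝ | ∃ σ : ℝ, riemannZeta (σ + (t + α j : ℝ) * I) = 0} := by
  ext t
  have e : ∀ s : ℝ, EP P s = eulerLog P s := fun s => rfl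
  have e2 : ∀ s : ℝ, zt s = zetaLine s := fun s => rfl
  have e3 : ∀ s : ℝ, EA P s = eulerArg P s := fun s => rfl
  have e4 : ∀ s : ℝ, az s = zetaArg s := fun s => rfl
  simp only [pattern, KE, JE, Set.mem_ofPred_eq, Set.mem_sdiff, Set.mem_inter_iff, Set.mem_Ioc, Set.mem_iUnion,
    not_exists, e, e2, e3, e4, noZero]
  constructor
  · rintro ⟨h1, h2, h3, h4⟩
    exact ⟨⟨⟨⟨h1, h2⟩, fun j => (h3 j).2.1, h4⟩, fun j => (h3 j).2.2⟩, fun j σ => (h3 j).1 σ⟩
  · rintro ⟨⟨⟨⟨h1, h2⟩, h3, h4⟩, h6⟩, h5⟩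
    exact ⟨h1, h2, fun j => ⟨fun σ => h5 j σ, h3 j, h6 j⟩, h4⟩

lemma joint_extremes (n : ℕ) (κ A ε η : ℝ) (hκ : 0 < κ) (hε : 0 < ε) (hη : 0 < η) : ∃ c C : ℝ, 0 < c ∧ 0 < C ∧
    ∀ᶠ T : ℝ in atTop, ∀ (P : ℕ) (z : ℕ → ℂ) (α : Fin n → ℝ) (w : Fin n → ℂ),
      P * Real.log (Real.log T) ≤ c * Real.log T → (∀ p, ‖z p‖ = 1) → (∀ j, |α j| ≤ T / 2) →
      (∀ i j, i ≠ j → κ / Real.log (Real.log T) ≤ |α i - α j| ∧ |α i - α j| ≤ A) →
      (∀ j, ‖w j‖ ≤ c * Real.sqrt (Real.log T / Real.log (Real.log T))) →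
      MeasurableSet (pattern (C * Real.sqrt (Real.log (Real.log T))) ε P z α w T) ∧
      ENNReal.ofReal (T ^ (1 - η)) ≤ volume (pattern (C * Real.sqrt (Real.log (Real.log T))) ε P z α w T) := by
  obtain ⟨c, C, hc, hC, h⟩ := Run7.h311.OA.joint_c n (A := A) hκ hε hη
  refine ⟨c, C, hc, hC, ?_⟩
  filter_upwards [h] with T h P z α w hP hz hα hgap hw
  have h1 := h P z α w hP hz hα hgap hw
  have hc : (⋃ j, {t : ℝ | ∃ σ : ℝ, riemannZeta (σ + (t + α j : ℝ) * I) = 0}).Countable :=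
    Set.countable_iUnion fun j => Run7.h311.OA.heights_shift (α j)
  rw [pattern_eq]
  refine ⟨(Run7.h311.OA.KE_meas _ _ _ _ _ _ _).diff hc.measurableSet, ?_⟩
  rw [measure_sdiff_null (hc.measure_zero volume)]
  rw [Measure.real] at h1
  exact ENNReal.ofReal_le_of_le_toReal h1

lemma omega_S (η : ℝ) (hη : 0 < η) : ∃ c : ℝ, 0 < c ∧ ∀ᶠ T : ℝ in atTop,
    ENNReal.ofReal (T ^ (1 - η)) ≤
      volume {t : ℝ | T < t ∧ t ≤ 2 * T ∧ noZero t ∧ c * Real.sqrt (Real.log T / Real.log (Real.log T)) ≤ zetaArg t} ∧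
    ENNReal.ofReal (T ^ (1 - η)) ≤
      volume {t : ℝ | T < t ∧ t ≤ 2 * T ∧ noZero t ∧
        zetaArg t ≤ -(c * Real.sqrt (Real.log T / Real.log (Real.log T)))} := by
  obtain ⟨c, C, hc, hC, h⟩ := joint_extremes 1 1 1 1 η one_pos one_pos hη
  refine ⟨c / 2, by positivity, ?_⟩
  have tL : Tendsto Real.log atTop atTop := Real.tendsto_log_atTop
  have tLL : Tendsto (fun T => Real.log (Real.log T)) atTop atTop := tL.comp tL
  -- `C log log T ≤ (c/2) √(log T)`
  have hcmp : ∀ᶠ L : ℝ in atTop, C * Real.log L ≤ c / 2 * Real.sqrt L := by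
    have h2 := (isLittleO_log_rpow_atTop (show (0 : ℝ) < 1 / 2 by norm_num)).bound
      (show (0 : ℝ) < c / 2 / C by positivity)
    filter_upwards [h2, eventually_ge_atTop (1 : ℝ)] with L h hL
    rw [Real.norm_eq_abs, Real.norm_eq_abs, abs_of_nonneg (Real.log_nonneg hL), abs_of_nonneg (by positivity),
      ← Real.sqrt_eq_rpow] at h
    calc C * Real.log L ≤ C * (c / 2 / C * Real.sqrt L) := mul_le_mul_of_nonneg_left h hC.le
      _ = c / 2 * Real.sqrt L := by field_simp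
  filter_upwards [h, tL.eventually hcmp, tL.eventually_ge_atTop 1, tLL.eventually_ge_atTop 1, tL.eventually_ge_atTop 0,
    eventually_ge_atTop (1 : ℝ)] with T h hcmp hL1 hLL1 hL0 hT1
  obtain ⟨L, hLd⟩ : ∃ L, L = Real.log T := ⟨_, rfl⟩
  obtain ⟨l, hl⟩ : ∃ l, l = Real.log L := ⟨_, rfl⟩
  rw [← hLd] at h hcmp hL1 hLL1 hL0 ⊢
  rw [← hl] at h hcmp hLL1 ⊢
  have hl0 : 0 < l := by linarith
  have hgap : C * Real.sqrt l ≤ c / 2 * Real.sqrt (L / l) := by
    rw [Real.sqrt_div hL0, ← mul_div_assoc, le_div_iff₀ (Real.sqrt_pos.2 hl0), mul_assoc, Real.mul_self_sqrt hl0.le]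
    exact hcmp
  obtain ⟨s, hs⟩ : ∃ s, s = Real.sqrt (L / l) := ⟨_, rfl⟩
  rw [← hs] at h hgap ⊢
  have hs0 : 0 ≤ s := by rw [hs]; exact Real.sqrt_nonneg _
  have hcs : 0 ≤ c * s := by positivity
  have key : ∀ v : ℝ, |v| ≤ c * s → ENNReal.ofReal (T ^ (1 - η)) ≤
      volume {t : ℝ | T < t ∧ t ≤ 2 * T ∧ noZero t ∧ |zetaArg t - v| ≤ c / 2 * s} := by
    intro v hv
    have h1 := (h 0 (fun _ => 1) (fun _ => 0) (fun _ => (v : ℂ) * I) (by simp; positivity) (by simp)
      (fun _ => by simp; linarith) (fun i j hij => absurd (Subsingleton.elim i j) hij)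
      (fun _ => by simpa using hv)).2
    refine h1.trans (measure_mono ?_)
    rintro t ⟨h2, h3, h4, -⟩
    obtain ⟨k1, -, k3⟩ := h4 0
    have e1 : ((v : ℂ) * I).im = v := by simp
    have e2 : eulerArg 0 (t + 0) = 0 := by simp [eulerArg]
    simp only [e1, e2, sub_zero] at k3
    rw [add_zero] at k1 k3
    exact ⟨h2, h3, k1, k3.trans hgap⟩
  constructor
  · refine (key (c * s) (abs_of_nonneg hcs).le).trans (measure_mono ?_)
    rintro t ⟨h2, h3, h4, h5⟩
    refine ⟨h2, h3, h4, ?_⟩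
    linarith [(abs_le.1 h5).1]
  · refine (key (-(c * s)) (by rw [abs_neg, abs_of_nonneg hcs])).trans (measure_mono ?_)
    rintro t ⟨h2, h3, h4, h5⟩
    refine ⟨h2, h3, h4, ?_⟩
    linarith [(abs_le.1 h5).2]

/-- **joint extreme values of modulus and argument at several shifts, with prescribed phases of the small primes;
`S(t) = Ω±(√(log t / log log t))`** -/
theorem result :
    (∀ t : ℝ, t ≠ 0 → noZero t → ∃ φ : ℝ → ℝ, ContinuousOn φ (Set.Ici (1 / 2)) ∧
      (∀ σ : ℝ, 1 / 2 ≤ σ → riemannZeta (σ + t * I) = (‖riemannZeta (σ + t * I)‖ : ℂ) * cexp (I * (φ σ : ℂ))) ∧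
      Tendsto φ atTop (𝓝 0) ∧ φ (1 / 2) = zetaArg t) ∧
    (∀ (n : ℕ) (κ A ε η : ℝ), 0 < κ → 0 < ε → 0 < η → ∃ c C : ℝ, 0 < c ∧ 0 < C ∧
      ∀ᶠ T : ℝ in atTop, ∀ (P : ℕ) (z : ℕ → ℂ) (α : Fin n → ℝ) (w : Fin n → ℂ),
        P * Real.log (Real.log T) ≤ c * Real.log T → (∀ p, ‖z p‖ = 1) → (∀ j, |α j| ≤ T / 2) →
        (∀ i j, i ≠ j → κ / Real.log (Real.log T) ≤ |α i - α j| ∧ |α i - α j| ≤ A) →
        (∀ j, ‖w j‖ ≤ c * Real.sqrt (Real.log T / Real.log (Real.log T))) →
        MeasurableSet (pattern (C * Real.sqrt (Real.log (Real.log T))) ε P z α w T) ∧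
        ENNReal.ofReal (T ^ (1 - η)) ≤ volume (pattern (C * Real.sqrt (Real.log (Real.log T))) ε P z α w T)) ∧
    (∀ η : ℝ, 0 < η → ∃ c : ℝ, 0 < c ∧ ∀ᶠ T : ℝ in atTop,
      ENNReal.ofReal (T ^ (1 - η)) ≤
        volume {t : ℝ | T < t ∧ t ≤ 2 * T ∧ noZero t ∧ c * Real.sqrt (Real.log T / Real.log (Real.log T)) ≤ zetaArg t} ∧
      ENNReal.ofReal (T ^ (1 - η)) ≤
        volume {t : ℝ | T < t ∧ t ≤ 2 * T ∧ noZero t ∧
          zetaArg t ≤ -(c * Real.sqrt (Real.log T / Real.log (Real.log T)))}) :=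
  ⟨fun _ ht hz => Run7.h311.OA.arg_path ht fun σ _ => hz σ, joint_extremes, omega_S⟩

end Pool.Agent.Results.MP_4e5e8a_nt.ModulusAndArgument
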