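import Pool.Agent.Run7.h311.MO.Neg

/-!
# Negative moments of the derivative of Hardy's function, unconditionally

There is `d > 0` such that for every `m ≥ 1` the sum of `|Z'(t)| ^ (-2 m)` over the simple zeros `t`
of Hardy's function in `(T, 2T]` at distance at least `d / log t` from every other zero of zeta in
the critical strip (on or off the critical line) is at least `c T (log T) ^ ((m - 1) ^ 2)`.

This is the order of magnitude conjectured by Gonek and Hejhal. Under the Riemann hypothesis (and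
the simplicity of all zeros) the lower bound is due to Gonek (1989) for `m = 1` and to Heap, Li and
Zhao (2022) in general.

The proof: the isolated simple zeros have a positive share of the weight `|R|²` for every Dirichlet
polynomial `R` of length `T ^ δ`. Here `R` is the `m`-th power of a short mollifier `M`; the mean
square of `ζ' M` at these zeros in this weight is at most a constant times `(log T) ^ 2`, so
`|ζ'| ^ (-2)` is at least a constant times `|M|² / (log T) ^ 2` at most of them.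
-/

open Filter Topology Complex

namespace Pool.Agent.Results.MP_6bc78b_nt.NegativeMoments

/-- the phase `exp (i ϑ(t))`, with `ϑ(t) = arg Γ(1/4 + i t / 2) - (t / 2) log π` -/
noncomputable def phase (t : ℝ) : ℂ :=
  Gamma (1 / 4 + I * t / 2) / ‖Gamma (1 / 4 + I * t / 2)‖ * cexp (-(I * (t / 2) * Real.log Real.pi))

/-- Hardy's function `Z(t) = exp (i ϑ(t)) ζ(1/2 + i t)` -/
noncomputable def Z (t : ℝ) : ℂ := phase t * riemannZeta (1 / 2 + I * t)

/-- the simple zeros `t` of `Z` in `(T₁, T₂]` for which `1/2 + it` has distance at least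
`d / log t` from all other zeros of zeta in the open critical strip -/
def isolated (d T₁ T₂ : ℝ) : Set ℝ :=
  {t : ℝ | T₁ < t ∧ t ≤ T₂ ∧ Z t = 0 ∧ deriv Z t ≠ 0 ∧
    ∀ s : ℂ, riemannZeta s = 0 → 0 < s.re → s.re < 1 → s ≠ 1 / 2 + I * t →
      d / Real.log t ≤ ‖s - (1 / 2 + I * t)‖}

lemma gamma_ne (t : ℝ) : Gamma (1 / 4 + I * t / 2) ≠ 0 := by
  apply Gamma_ne_zero_of_re_pos
  simp

lemma gamma_cont : Continuous fun t : ℝ => Gamma (1 / 4 + I * t / 2) := by
  rw [continuous_iff_continuousAt]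
  intro t
  have h1 : ContinuousAt Gamma (1 / 4 + I * t / 2) := by
    refine (differentiableAt_Gamma _ fun m hm => ?_).continuousAt
    have := congrArg Complex.re hm
    simp at this
    have hm0 : (0 : ℝ) ≤ m := Nat.cast_nonneg m
    linarith
  exact ContinuousAt.comp (f := fun t : ℝ => (1 / 4 + I * t / 2 : ℂ)) h1 (by fun_prop)

lemma phase_cont : Continuous phase := by
  unfold phase
  refine Continuous.mul (gamma_cont.div ?_ ?_) (by fun_prop)
  · exact Complex.continuous_ofReal.comp gamma_cont.norm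
  · intro t
    rw [Complex.ofReal_ne_zero]
    exact norm_ne_zero_iff.mpr (gamma_ne t)

lemma phase_ne (t : ℝ) : phase t ≠ 0 := by
  unfold phase
  refine mul_ne_zero (div_ne_zero (gamma_ne t) ?_) (Complex.exp_ne_zero _)
  rw [Complex.ofReal_ne_zero]
  exact norm_ne_zero_iff.mpr (gamma_ne t)

lemma phase_norm (t : ℝ) : ‖phase t‖ = 1 := by
  unfold phase
  rw [norm_mul, norm_div, Complex.norm_real, norm_norm,
    div_self (norm_ne_zero_iff.mpr (gamma_ne t)), one_mul]
  have e : -(I * (t / 2) * Real.log Real.pi) = ((-(t / 2 * Real.log Real.pi) : ℝ) : ℂ) * I := by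
    push_cast
    ring
  rw [e, Complex.norm_exp_ofReal_mul_I]

lemma Z_zero_iff (t : ℝ) : Z t = 0 ↔ riemannZeta (1 / 2 + I * t) = 0 := by
  unfold Z
  rw [mul_eq_zero]
  exact ⟨fun h => h.resolve_left (phase_ne t), Or.inr⟩

lemma half_ne (t : ℝ) : (1 / 2 + I * t : ℂ) ≠ 1 := by
  intro h
  have := congrArg Complex.re h
  norm_num at this

/-- the derivative of `Z` at a zero -/
lemma Z_hasDerivAt (t : ℝ) (h : riemannZeta (1 / 2 + I * t) = 0) :
    HasDerivAt Z (phase t * (deriv riemannZeta (1 / 2 + I * t) * I)) t := by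
  have hg : HasDerivAt (fun u : ℝ => riemannZeta (1 / 2 + I * u))
      (deriv riemannZeta (1 / 2 + I * t) * I) t := by
    have h1 : HasDerivAt (fun u : ℝ => (1 / 2 + I * u : ℂ)) I t := by
      have h2 : HasDerivAt (fun u : ℝ => (u : ℂ)) 1 t := Complex.ofRealCLM.hasDerivAt
      simpa using (h2.const_mul I).const_add (1 / 2 : ℂ)
    exact HasDerivAt.comp (h₂ := riemannZeta) t
      (differentiableAt_riemannZeta (half_ne t)).hasDerivAt h1
  rw [hasDerivAt_iff_tendsto_slope] at hg ⊢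
  have h3 : Tendsto phase (𝓝[≠] t) (𝓝 (phase t)) :=
    phase_cont.continuousAt.tendsto.mono_left nhdsWithin_le_nhds
  refine (h3.mul hg).congr fun u => ?_
  have hZ : Z t = 0 := (Z_zero_iff t).mpr h
  rw [slope_def_module, slope_def_module, hZ, h, sub_zero, sub_zero]
  unfold Z
  simp only [Complex.real_smul]
  ring

lemma Z_deriv_norm (t : ℝ) (h : riemannZeta (1 / 2 + I * t) = 0) :
    ‖deriv Z t‖ = ‖deriv riemannZeta (1 / 2 + I * t)‖ := by
  rw [(Z_hasDerivAt t h).deriv, norm_mul, norm_mul, phase_norm, Complex.norm_I, one_mul, mul_one]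

lemma isolated_finite (d T₁ T₂ : ℝ) (h : 1 ≤ T₁) : (isolated d T₁ T₂).Finite := by
  have h1 : (H370.zset riemannZeta T₁ T₂).Finite :=
    H370.zset_finite' H370.good_zeta T₁ T₂ (by linarith)
  refine (h1.image Complex.im).subset ?_
  rintro t ⟨ht1, ht2, ht3, -⟩
  refine ⟨1 / 2 + I * t, ?_, by simp⟩
  refine ⟨?_, ?_, ?_, ?_, (Z_zero_iff t).mp ht3⟩
  · simp
  · simp; norm_num
  · simpa using ht1
  · simpa using ht2

/-- from a finite set of isolated zeros to ordinates -/
lemma conv {d0 T : ℝ} (hT : 100 ≤ T) {G : Finset ℂ} (hG : ∀ s ∈ G, Run7.h311.EX.Iz d0 T s)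
    (F : ℝ → ℝ) (hF : ∀ x, 0 ≤ F x) :
    ∑ s ∈ G, F ‖deriv riemannZeta s‖ ≤ ∑ᶠ t ∈ isolated d0 T (2 * T), F ‖deriv Z t‖ := by
  classical
  have hfin := isolated_finite d0 T (2 * T) (by linarith)
  rw [finsum_mem_eq_finite_toFinset_sum _ hfin]
  have hinj : Set.InjOn Complex.im (G : Set ℂ) := by
    intro s hs s' hs' h
    exact Complex.ext ((hG s hs).re.trans (hG s' hs').re.symm) h
  have h8 : ∀ s ∈ G, riemannZeta (1 / 2 + I * (s.im : ℂ)) = 0 ∧ (1 / 2 + I * (s.im : ℂ) : ℂ) = s := by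
    intro s hs
    have e1 : (1 / 2 + I * (s.im : ℂ) : ℂ) = s := by
      apply Complex.ext <;> simp [(hG s hs).re]
    exact ⟨by rw [e1]; exact (hG s hs).zero, e1⟩
  have hsub : G.image Complex.im ⊆ hfin.toFinset := by
    intro t ht
    rw [Finset.mem_image] at ht
    obtain ⟨s, hs, rfl⟩ := ht
    have hz := hG s hs
    obtain ⟨h9, e1⟩ := h8 s hs
    have hlo := hz.lo
    have hhi := hz.hi
    have hd : deriv riemannZeta s ≠ 0 :=
      Run7.h311.EX.deriv_of_order (Run7.h311.EX.ne_one (by linarith)) hz.zero hz.simple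
    rw [Set.Finite.mem_toFinset]
    refine ⟨by linarith, by linarith, (Z_zero_iff _).mpr h9, ?_, ?_⟩
    · rw [← norm_ne_zero_iff, Z_deriv_norm _ h9, e1]
      exact norm_ne_zero_iff.mpr hd
    · intro s' h1 h2 h3 h4
      rw [e1] at h4 ⊢
      exact hz.iso s' h1 h2 h3 h4
  calc ∑ s ∈ G, F ‖deriv riemannZeta s‖ = ∑ s ∈ G, F ‖deriv Z s.im‖ := by
        refine Finset.sum_congr rfl fun s hs => ?_
        obtain ⟨h9, e1⟩ := h8 s hs
        rw [Z_deriv_norm _ h9, e1]
    _ = ∑ t ∈ G.image Complex.im, F ‖deriv Z t‖ :=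
        (Finset.sum_image (f := fun t => F ‖deriv Z t‖) hinj).symm
    _ ≤ _ := Finset.sum_le_sum_of_subset_of_nonneg hsub fun t _ _ => hF _

/-- **negative moments of `Z'` over isolated simple zeros** -/
theorem result : ∃ d : ℝ, 0 < d ∧ ∀ m : ℕ, 1 ≤ m → ∃ c T₀ : ℝ, 0 < c ∧ ∀ T : ℝ, T₀ ≤ T →
    c * (T * Real.log T ^ ((m - 1) ^ 2)) ≤
      ∑ᶠ t ∈ isolated d T (2 * T), (‖deriv Z t‖ ^ (2 * m))⁻¹ := by
  obtain ⟨d0, δf, Tf, hd0, hd1, hδf, -, -, hF⟩ := Run7.h311.EX.zeros_frame
  refine ⟨d0, hd0, fun m hm => ?_⟩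
  obtain ⟨c, T₁, hc, h⟩ := Run7.h311.MO.negmom hd0 hd1 hδf hF (m - 1)
  refine ⟨c, max 100 T₁, hc, fun T hT => ?_⟩
  obtain ⟨G, hG, hsum⟩ := h T ((le_max_right _ _).trans hT)
  refine hsum.trans ?_
  rw [Nat.sub_add_cancel hm]
  simp_rw [← pow_mul]
  exact conv ((le_max_left _ _).trans hT) hG (fun x => (x ^ (2 * m))⁻¹)
    fun x => inv_nonneg.2 (Even.pow_nonneg (even_two_mul m) x)

end Pool.Agent.Results.MP_6bc78b_nt.NegativeMoments
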