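import Pool.Agent.Run7.h311.DV.Mom
import Pool.Agent.Run7.h311.MO.Pos

/-!
# The size of `ζ'` at isolated simple zeros, in every weight `|R|²`, and its moments

Unconditionally:

* for every `ε > 0` there are `d, δ > 0` such that for every `α` in `(0, 1/5]` and all large `T` there
  is a cutoff `V` (`0 ≤ V ≤ 1`, `V(n) = 1` for `n ≤ T ^ (α/2)`, `V(n) = 0` for `n ≥ T ^ α`) such that, for
  every Dirichlet polynomial `R(t) = ∑ r(n) n ^ (- i t)` over `n ≤ T ^ δ` with arbitrary complex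
  coefficients, at least the share `0.6725 - ε` of `(T / 8π) log T ∑ |r(n)|²` (which is the size of
  the sum of `|R(γ)|²` over all zeros with `5T/4 < γ ≤ 3T/2`) comes from simple zeros `1/2 + iγ` on
  the critical line, at distance at least `d / log γ` from all other zeros, with
  `|D(γ)| log T / A ≤ |ζ'(1/2 + iγ)| ≤ A log T / |M(γ)|`. Here `D(t) = ∑ V(n) n ^ (-1/2 - it)` is a smooth
  partial sum of zeta and `M(t) = ∑ μ(n) V(n) n ^ (-1/2 - it)` a mollifier, both of length `T ^ α`;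
* the sum of `|ζ'(1/2 + iγ)| ^ (2k)` over the isolated simple zeros with `T < γ ≤ 2T` is at least
  `c T (log T) ^ ((k + 1) ^ 2)`, for all integers `k ≥ 1`;
* in every weight: for every integer `k ≥ 0` the sum of `|ζ'(1/2 + iγ)| ^ (2k) |R(γ)|²` over the
  isolated simple zeros with `T < γ ≤ 2T` is at least
  `c (log T) ^ (2k + 1) ∫_T^{2T} |D(t)| ^ (2k) |R(t)|² dt`.
-/

open Filter Topology Complex

namespace Pool.Agent.Results.MP_6bc78b_nt.SizeInEveryWeight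

/-- the partial sum of zeta with the coefficients `V` at the point `1/2 + it` -/
noncomputable def D (V : ℕ → ℝ) (N : ℕ) (t : ℝ) : ℂ :=
  ∑ n ∈ Finset.Icc 1 N, (V n : ℂ) * (n : ℂ) ^ (-(1 / 2 + t * I))

/-- the mollifier with the coefficients `μ V` at the point `1/2 + it` -/
noncomputable def M (V : ℕ → ℝ) (N : ℕ) (t : ℝ) : ℂ :=
  ∑ n ∈ Finset.Icc 1 N, ((ArithmeticFunction.moebius n : ℤ) : ℂ) *
    ((V n : ℂ) * (n : ℂ) ^ (-(1 / 2 + t * I)))

/-- the Dirichlet polynomial `∑ r(n) n ^ (- i t)`, `n ≤ N` -/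
noncomputable def R (r : ℕ → ℂ) (N : ℕ) (t : ℝ) : ℂ :=
  ∑ n ∈ Finset.Icc 1 N, r n * (n : ℂ) ^ (-(t * I))

/-- the derivative of zeta at the point `1/2 + it` -/
noncomputable def dz (t : ℝ) : ℂ := deriv riemannZeta (1 / 2 + t * I)

/-- the ordinates `t` in `(T₁, T₂]` of the simple zeros `1/2 + it` of zeta at distance at least
`d / log t` from all other zeros of zeta in the open critical strip -/
def isolated (d T₁ T₂ : ℝ) : Set ℝ :=
  {t : ℝ | T₁ < t ∧ t ≤ T₂ ∧ riemannZeta (1 / 2 + t * I) = 0 ∧ dz t ≠ 0 ∧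
    ∀ s : ℂ, riemannZeta s = 0 → 0 < s.re → s.re < 1 → s ≠ 1 / 2 + t * I →
      d / Real.log t ≤ ‖s - (1 / 2 + t * I)‖}

/-- those of them in `(5T/4, 3T/2]` at which the derivative lies between `|D| log T / A` and
`A log T / |M|` -/
def typical (d A T : ℝ) (V : ℕ → ℝ) (N : ℕ) : Set ℝ :=
  {t : ℝ | t ∈ isolated d (5 / 4 * T) (3 / 2 * T) ∧ ‖D V N t‖ * Real.log T ≤ A * ‖dz t‖ ∧
    ‖M V N t‖ * ‖dz t‖ ≤ A * Real.log T}

/-- `V` is a cutoff: `1` up to `x`, `0` from `y` on -/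
def Cutoff (V : ℕ → ℝ) (x y : ℝ) : Prop :=
  (∀ n, 0 ≤ V n ∧ V n ≤ 1) ∧ (∀ n : ℕ, (n : ℝ) ≤ x → V n = 1) ∧ (∀ n : ℕ, y ≤ n → V n = 0)

lemma isolated_finite (d T₁ T₂ : ℝ) (h : 1 ≤ T₁) : (isolated d T₁ T₂).Finite := by
  have h1 : (H370.zset riemannZeta T₁ T₂).Finite :=
    H370.zset_finite' H370.good_zeta T₁ T₂ (by linarith)
  refine (h1.image Complex.im).subset ?_
  rintro t ⟨ht1, ht2, ht3, -⟩
  refine ⟨1 / 2 + t * I, ?_, by simp⟩
  refine ⟨?_, ?_, ?_, ?_, ht3⟩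
  · simp
  · simp; norm_num
  · simpa using ht1
  · simpa using ht2

lemma point {s : ℂ} (h : s.re = 1 / 2) : (1 / 2 + (s.im : ℂ) * I : ℂ) = s := by
  apply Complex.ext <;> simp [h]

lemma iz_mem {d0 T : ℝ} (hT : 100 ≤ T) {s : ℂ} (h : Run7.h311.EX.Iz d0 T s) :
    s.im ∈ isolated d0 (5 / 4 * T) (3 / 2 * T) := by
  have e := point h.re
  refine ⟨h.lo, h.hi, by rw [e]; exact h.zero, ?_, ?_⟩
  · unfold dz
    rw [e]
    exact Run7.h311.EX.deriv_of_order (Run7.h311.EX.ne_one (by linarith [h.lo])) h.zero h.simple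
  · intro s' h1 h2 h3 h4
    rw [e] at h4 ⊢
    exact h.iso s' h1 h2 h3 h4

lemma iz_mem' {d0 T : ℝ} (hT : 100 ≤ T) {s : ℂ} (h : Run7.h311.EX.Iz d0 T s) :
    s.im ∈ isolated d0 T (2 * T) := by
  obtain ⟨h1, h2, h3⟩ := iz_mem hT h
  exact ⟨by linarith, by linarith, h3⟩

/-- from finite sets of zeros to sets of ordinates -/
lemma conv {E : Set ℝ} (hE : E.Finite) {G : Finset ℂ} (hG : ∀ s ∈ G, s.re = 1 / 2 ∧ s.im ∈ E)
    (F : ℝ → ℝ) (hF : ∀ x, 0 ≤ F x) : ∑ s ∈ G, F s.im ≤ ∑ᶠ t ∈ E, F t := by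
  classical
  rw [finsum_mem_eq_finite_toFinset_sum _ hE]
  have hinj : Set.InjOn Complex.im (G : Set ℂ) := by
    intro s hs s' hs' h
    exact Complex.ext ((hG s hs).1.trans (hG s' hs').1.symm) h
  have hsub : G.image Complex.im ⊆ hE.toFinset := by
    intro t ht
    rw [Finset.mem_image] at ht
    obtain ⟨s, hs, rfl⟩ := ht
    rw [Set.Finite.mem_toFinset]
    exact (hG s hs).2
  calc ∑ s ∈ G, F s.im = ∑ t ∈ G.image Complex.im, F t :=
        (Finset.sum_image (f := fun t => F t) hinj).symm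
    _ ≤ _ := Finset.sum_le_sum_of_subset_of_nonneg hsub fun t _ _ => hF _

lemma R_eq (r : ℕ → ℂ) (N : ℕ) (t : ℝ) : R r N t = N802.RP (Finset.Icc 1 N) r t := by
  unfold R N802.RP N802.TP
  refine Finset.sum_congr rfl fun n hn => ?_
  have hn0 : (n : ℂ) ≠ 0 := by
    have := (Finset.mem_Icc.1 hn).1
    exact_mod_cast (by omega : n ≠ 0)
  congr 1
  unfold N802.mn
  rw [Complex.cpow_def_of_ne_zero hn0, ← Complex.natCast_log]
  congr 1
  rw [Nat.cast_one, Real.log_one]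
  push_cast
  ring

lemma cut {T α : ℝ} (hT : 1 ≤ T) (hα : 0 < α) {V : ℝ → ℝ} (hV : ∀ x, 0 ≤ V x ∧ V x ≤ 1)
    (hV1 : ∀ x, x ≤ α / 2 * Real.log T → V x = 1) (hV0 : ∀ x, α * Real.log T ≤ x → V x = 0) :
    Cutoff (fun n => V (Real.log n)) (T ^ (α / 2)) (T ^ α) := by
  have hTp : 0 < T := by linarith
  have hlogT : 0 ≤ Real.log T := Real.log_nonneg hT
  refine ⟨fun n => hV _, fun n hn => ?_, fun n hn => ?_⟩
  · apply hV1
    rcases Nat.eq_zero_or_pos n with h0 | h0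
    · rw [h0, Nat.cast_zero, Real.log_zero]
      positivity
    · rw [← Real.log_rpow hTp]
      exact Real.log_le_log (by exact_mod_cast h0) hn
  · apply hV0
    rw [← Real.log_rpow hTp]
    exact Real.log_le_log (by positivity) hn

lemma sq_le {a b : ℝ} (ha : 0 ≤ a) (hb : 0 ≤ b) (h : a ^ 2 ≤ b ^ 2) : a ≤ b :=
  (sq_le_sq₀ ha hb).1 h

lemma frameP {d0 δ T0 : ℝ} (h : Run7.h311.DV.FrameE d0 δ T0 (1 / 10)) :
    Run7.h311.EX.FrameP d0 δ (max T0 10) := by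
  intro T hT
  obtain ⟨h1, Z, h2, h3, h4⟩ := h T ((le_max_left _ _).trans hT)
  refine ⟨h1, Z, h2, h3, fun S hS r => ⟨?_, (h4 S hS r).2⟩⟩
  refine le_trans ?_ (h4 S hS r).1
  have hTp : 0 < T := lt_of_lt_of_le (by norm_num) ((le_max_right _ _).trans hT)
  have hT1 : 1 ≤ T := le_trans (by norm_num) ((le_max_right _ _).trans hT)
  have hw := N802.w1_nonneg S r
  have hpi := Real.pi_pos
  have hpi2 := Real.pi_lt_d2
  have hlog1 : Real.log T ≤ Real.log (5 / 4 * T) := Real.log_le_log hTp (by linarith)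
  have hlog0 : 0 ≤ Real.log T := Real.log_nonneg hT1
  have h5 : (1 : ℝ) / 60 ≤ (0.6725 - 1 / 10 - 1 / 10) * (1 / 4 / (2 * Real.pi)) := by
    have h5 : (1 : ℝ) / 4 / 6.3 ≤ 1 / 4 / (2 * Real.pi) :=
      div_le_div_of_nonneg_left (by norm_num) (by positivity) (by linarith)
    have h6 : (1 : ℝ) / 60 ≤ (0.6725 - 1 / 10 - 1 / 10) * (1 / 4 / 6.3) := by norm_num
    refine h6.trans ?_
    exact mul_le_mul_of_nonneg_left h5 (by norm_num)
  have h6 : 0 ≤ T * Real.log T * N802.w1 S r := by positivity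
  calc T * Real.log T * N802.w1 S r / 60 = (1 / 60) * (T * Real.log T * N802.w1 S r) := by ring
    _ ≤ ((0.6725 - 1 / 10 - 1 / 10) * (1 / 4 / (2 * Real.pi))) *
        (T * Real.log T * N802.w1 S r) := by gcongr
    _ = (0.6725 - 1 / 10 - 1 / 10) * (T / 4 / (2 * Real.pi) * Real.log T * N802.w1 S r) := by ring
    _ ≤ _ := by
        have h4 : (0 : ℝ) ≤ 0.6725 - 1 / 10 - 1 / 10 := by norm_num
        gcongr

/-- **the size of the derivative in every weight** -/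
theorem part1 (ε : ℝ) (hε : 0 < ε) : ∃ d δ : ℝ, 0 < d ∧ 0 < δ ∧ ∀ α : ℝ, 0 < α → α ≤ 1 / 5 →
    ∃ A T₀ : ℝ, ∀ T : ℝ, T₀ ≤ T → ∃ V : ℕ → ℝ, Cutoff V (T ^ (α / 2)) (T ^ α) ∧
    ∀ (N : ℕ) (r : ℕ → ℂ), (N : ℝ) ≤ T ^ δ →
      (0.6725 - ε) * (T / (8 * Real.pi) * Real.log T * ∑ n ∈ Finset.Icc 1 N, ‖r n‖ ^ 2) ≤
        ∑ᶠ t ∈ typical d A T V ⌊T ^ α⌋₊, ‖R r N t‖ ^ 2 := by
  obtain ⟨e, he, he1, heε⟩ : ∃ e : ℝ, 0 < e ∧ e ≤ 1 / 10 ∧ 3 * e ≤ ε :=
    ⟨min (ε / 3) (1 / 10), lt_min (by linarith) (by norm_num), min_le_right _ _, by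
      linarith [min_le_left (ε / 3) (1 / 10)]⟩
  obtain ⟨d0, δf, Tf, hd0, hd1, hδf, -, -, hF⟩ := Run7.h311.DV.frameE he he1
  obtain ⟨μ, hμ, -, h⟩ := Run7.h311.DV.size he hd0 hd1 hδf hF
  refine ⟨d0, μ, hd0, hμ, fun α hα hα5 => ?_⟩
  obtain ⟨A, T1, hA, hT1, h⟩ := h α hα hα5
  refine ⟨Real.sqrt A, T1, fun T hT => ?_⟩
  have hT100 : 100 ≤ T := hT1.trans hT
  have hT1' : 1 ≤ T := by linarith
  have hTp : 0 < T := by linarith
  obtain ⟨V, hV, hV1, hV0, hmain⟩ := h T hT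
  refine ⟨fun n => V (Real.log n), cut hT1' hα hV hV1 hV0, fun N r hN => ?_⟩
  have hS : N802.U.Len (Finset.Icc 1 N) (T ^ μ) := fun k hk => by
    rw [Finset.mem_Icc] at hk
    exact ⟨hk.1, (Nat.cast_le.2 hk.2).trans hN⟩
  obtain ⟨G, hG, hGs⟩ := hmain _ hS r
  have hlog0 : 0 ≤ Real.log T := Real.log_nonneg hT1'
  have hlog : Real.log T ≤ Real.log (5 / 4 * T) := Real.log_le_log hTp (by linarith)
  have hw := N802.w1_nonneg (Finset.Icc 1 N) r
  have hpi := Real.pi_pos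
  have hw1 : N802.w1 (Finset.Icc 1 N) r = ∑ n ∈ Finset.Icc 1 N, ‖r n‖ ^ 2 := rfl
  have hfin : (typical d0 (Real.sqrt A) T (fun n => V (Real.log n)) ⌊T ^ α⌋₊).Finite :=
    (isolated_finite d0 (5 / 4 * T) (3 / 2 * T) (by linarith)).subset fun t ht => ht.1
  have h2 : ∑ s ∈ G, ‖N802.RP (Finset.Icc 1 N) r s.im‖ ^ 2 ≤
      ∑ᶠ t ∈ typical d0 (Real.sqrt A) T (fun n => V (Real.log n)) ⌊T ^ α⌋₊, ‖R r N t‖ ^ 2 := by
    have h3 := conv hfin (G := G) (F := fun t => ‖R r N t‖ ^ 2) (fun s hs => ?_)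
      (fun x => sq_nonneg _)
    · simp only [R_eq] at h3 ⊢
      exact h3
    · obtain ⟨g1, g2, g3⟩ := hG s hs
      refine ⟨g1.re, iz_mem hT100 g1, ?_, ?_⟩
      · apply sq_le (by positivity) (by positivity)
        rw [mul_pow, mul_pow, Real.sq_sqrt hA.le]
        unfold dz D
        rw [point g1.re]
        exact g2
      · apply sq_le (by positivity) (by positivity)
        rw [mul_pow, mul_pow, Real.sq_sqrt hA.le]
        unfold dz M
        rw [point g1.re]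
        exact g3
  rw [← hw1]
  rcases le_or_gt (0.6725 - ε) 0 with hneg | hpos
  · refine le_trans ?_ (le_trans (Finset.sum_nonneg fun s _ => sq_nonneg _) h2)
    exact mul_nonpos_of_nonpos_of_nonneg hneg (by positivity)
  · refine le_trans ?_ (hGs.trans h2)
    calc (0.6725 - ε) * (T / (8 * Real.pi) * Real.log T * N802.w1 (Finset.Icc 1 N) r) ≤
        (0.6725 - 3 * e) * (T / (8 * Real.pi) * Real.log T * N802.w1 (Finset.Icc 1 N) r) := by
          gcongr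
      _ = (0.6725 - 3 * e) * (T / 4 / (2 * Real.pi) * Real.log T *
          N802.w1 (Finset.Icc 1 N) r) := by
          congr 3
          rw [div_div]
          congr 1
          ring
      _ ≤ _ := by
          have : 0 ≤ 0.6725 - 3 * e := by linarith
          gcongr

theorem result :
    (∀ ε : ℝ, 0 < ε → ∃ d δ : ℝ, 0 < d ∧ 0 < δ ∧ ∀ α : ℝ, 0 < α → α ≤ 1 / 5 →
      ∃ A T₀ : ℝ, ∀ T : ℝ, T₀ ≤ T → ∃ V : ℕ → ℝ, Cutoff V (T ^ (α / 2)) (T ^ α) ∧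
      ∀ (N : ℕ) (r : ℕ → ℂ), (N : ℝ) ≤ T ^ δ →
        (0.6725 - ε) * (T / (8 * Real.pi) * Real.log T * ∑ n ∈ Finset.Icc 1 N, ‖r n‖ ^ 2) ≤
          ∑ᶠ t ∈ typical d A T V ⌊T ^ α⌋₊, ‖R r N t‖ ^ 2) ∧
    ∃ d : ℝ, 0 < d ∧
      (∀ k : ℕ, 1 ≤ k → ∃ c T₀ : ℝ, 0 < c ∧ ∀ T : ℝ, T₀ ≤ T →
        c * (T * Real.log T ^ ((k + 1) ^ 2)) ≤ ∑ᶠ t ∈ isolated d T (2 * T), ‖dz t‖ ^ (2 * k)) ∧
      ∀ k : ℕ, ∃ δ α c T₀ : ℝ, 0 < δ ∧ 0 < α ∧ 0 < c ∧ ∀ T : ℝ, T₀ ≤ T →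
        ∃ V : ℕ → ℝ, Cutoff V (T ^ (α / 2)) (T ^ α) ∧
        ∀ (N : ℕ) (r : ℕ → ℂ), (N : ℝ) ≤ T ^ δ →
          c * Real.log T ^ (2 * k + 1) *
              ∫ t in T..(2 * T), ‖D V ⌊T ^ α⌋₊ t‖ ^ (2 * k) * ‖R r N t‖ ^ 2 ≤
            ∑ᶠ t ∈ isolated d T (2 * T), ‖dz t‖ ^ (2 * k) * ‖R r N t‖ ^ 2 := by
  refine ⟨part1, ?_⟩
  obtain ⟨d0, δf, Tf, hd0, hd1, hδf, -, -, hF⟩ :=
    Run7.h311.DV.frameE (ε := 1 / 10) (by norm_num) le_rfl
  refine ⟨d0, hd0, fun k hk => ?_, fun k => ?_⟩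
  · obtain ⟨c, T₁, hc, h⟩ := Run7.h311.MO.posmom hd0 hd1 hδf (frameP hF) (k - 1)
    refine ⟨c, max 100 T₁, hc, fun T hT => ?_⟩
    have hT100 : 100 ≤ T := (le_max_left _ _).trans hT
    obtain ⟨G, hG, hsum⟩ := h T ((le_max_right _ _).trans hT)
    have e1 : k - 1 + 2 = k + 1 := by omega
    have e2 : k - 1 + 1 = k := by omega
    rw [e1, e2] at hsum
    simp_rw [← pow_mul] at hsum
    refine hsum.trans ?_
    have h3 := conv (isolated_finite d0 T (2 * T) (by linarith)) (G := G)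
      (F := fun t => ‖dz t‖ ^ (2 * k)) (fun s hs => ⟨(hG s hs).re, iz_mem' hT100 (hG s hs)⟩)
      (fun x => by positivity)
    refine le_trans (le_of_eq ?_) h3
    refine Finset.sum_congr rfl fun s hs => ?_
    unfold dz
    rw [point (hG s hs).re]
  · obtain ⟨δ, α, c, T0, hδ, hα, hc, hT0, h⟩ := Run7.h311.DV.momE hd0 hd1 hδf hF k
    refine ⟨δ, α, c, T0, hδ, hα, hc, fun T hT => ?_⟩
    have hT100 : 100 ≤ T := hT0.trans hT
    have hT1' : 1 ≤ T := by linarith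
    obtain ⟨V, hV, hV1, hV0, hmain⟩ := h T hT
    refine ⟨fun n => V (Real.log n), cut hT1' hα hV hV1 hV0, fun N r hN => ?_⟩
    have hS : N802.U.Len (Finset.Icc 1 N) (T ^ δ) := fun k hk => by
      rw [Finset.mem_Icc] at hk
      exact ⟨hk.1, (Nat.cast_le.2 hk.2).trans hN⟩
    obtain ⟨G, hG, hGs⟩ := hmain _ hS r
    have h3 := conv (isolated_finite d0 T (2 * T) (by linarith)) (G := G)
      (F := fun t => ‖dz t‖ ^ (2 * k) * ‖R r N t‖ ^ 2)
      (fun s hs => ⟨(hG s hs).re, iz_mem' hT100 (hG s hs)⟩) (fun x => by positivity)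
    refine le_trans (le_trans (le_of_eq ?_) hGs) (le_trans (le_of_eq ?_) h3)
    · congr 1
      refine intervalIntegral.integral_congr fun t _ => ?_
      rw [R_eq]
      have e3 : R399.TW.pt (1 / 2) t = 1 / 2 + t * I := by
        unfold R399.TW.pt
        push_cast
        ring
      rw [e3]
      rfl
    · refine Finset.sum_congr rfl fun s hs => ?_
      rw [R_eq]
      unfold dz
      rw [point (hG s hs).re]

end Pool.Agent.Results.MP_6bc78b_nt.SizeInEveryWeight
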